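import Pool.Agent.H717R2.MQ.Pairs
import Pool.Agent.H95R2.BG.Final2

open MeasureTheory Filter Topology

namespace Pool.Agent.Results.MP_0b748d_nt.MetricPrimePairs

open Pool.Agent.H717R2.MQ

theorem aux {P : ℕ → Prop} {_ : DecidablePred P} {x c : ℝ} (hx : 0 ≤ x)
    (h : c ≤ (((Finset.Icc 1 ⌊x⌋₊).filter (fun n : ℕ => P n)).card : ℝ)) :
    c ≤ (Set.ncard {n : ℕ | 1 ≤ n ∧ (n : ℝ) ≤ x ∧ P n} : ℝ) := by
  have hS : {n : ℕ | 1 ≤ n ∧ (n : ℝ) ≤ x ∧ P n} =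
      (((Finset.Icc 1 ⌊x⌋₊).filter (fun n : ℕ => P n) : Finset ℕ) : Set ℕ) := by
    ext n
    simp only [Set.mem_ofPred_eq, Finset.coe_filter, Finset.mem_Icc, Nat.le_floor_iff hx, and_assoc]
  rw [hS, Set.ncard_coe_finset]
  exact h

theorem dhl : DHL := by
  intro a ha hadm ε hε
  filter_upwards [Pool.Agent.H95R2.BG.dhl49_consecutive a ha hadm ε hε, Filter.eventually_ge_atTop (0 : ℝ)] with x h hx
  exact aux hx h

theorem gaps : GAPS := by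
  classical
  intro ε hε
  filter_upwards [Pool.Agent.H95R2.BG.gaps240 ε hε, Filter.eventually_ge_atTop (0 : ℝ)] with x h hx
  refine h.trans ?_
  rw [← Set.ncard_coe_finset]
  have hfin : {n : ℕ | (Nat.nth Nat.Prime n : ℝ) ≤ x ∧
        Nat.nth Nat.Prime (n + 1) - Nat.nth Nat.Prime n ≤ 240}.Finite := by
    apply (Set.finite_Iic ⌊x⌋₊).subset
    rintro n ⟨hn, -⟩
    rw [Set.mem_Iic, Nat.le_floor_iff hx]
    refine le_trans ?_ hn
    exact_mod_cast (Nat.nth_strictMono Nat.infinite_setOf_prime).le_apply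
  have := Set.ncard_le_ncard (s := ((((Finset.Icc 1 ⌊x⌋₊).filter (fun n : ℕ =>
      (Nat.nth Nat.Prime n : ℝ) ≤ x ∧ Nat.nth Nat.Prime (n + 1) - Nat.nth Nat.Prime n ≤ 240)) : Finset ℕ) : Set ℕ)) ?_ hfin
  · exact_mod_cast this
  · intro n hn
    simp only [Finset.coe_filter, Set.mem_setOf_eq] at hn
    exact hn.2

/-- **Pairs of primes along `⌊α n ^ c⌋`.**  For every real `c ≥ 1` (in particular `c = 2`) there is a set `E` of
Hausdorff dimension less than one such that for every real `α > 0` outside `E`: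

(1) for every integer `h` (in particular `h = -2`) and every `ε > 0`, for all large `N` at least `N ^ (1 - ε)` of
the `n ≤ N` are such that `⌊α n ^ c⌋ + h` is a prime and the next prime is at most `240` larger;

(2) for every admissible `49`-tuple `a` of distinct integers and every `ε > 0`, for all large `N` at least
`N ^ (1 - ε)` of the `n ≤ N` are such that two of the `49` integers `⌊α n ^ c⌋ + a i` are primes, and every
prime in the interval they span is one of them. -/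
theorem result (c : ℝ) (hc : 1 ≤ c) : ∃ E : Set ℝ, dimH E < 1 ∧ ∀ α : ℝ, 0 < α → α ∉ E →
    (∀ h : ℤ, ∀ ε : ℝ, 0 < ε → ∀ᶠ N : ℕ in atTop, (N : ℝ) ^ (1 - ε) ≤
      ({n : ℕ | 1 ≤ n ∧ n ≤ N ∧ ∃ i : ℕ, (Nat.nth Nat.Prime i : ℤ) = (⌊α * (n : ℝ) ^ c⌋₊ : ℤ) + h ∧
        Nat.nth Nat.Prime (i + 1) - Nat.nth Nat.Prime i ≤ 240}.ncard : ℝ)) ∧
    (∀ a : Fin 49 → ℤ, Function.Injective a →
      (∀ p : ℕ, p.Prime → ∃ r : ℤ, ∀ i, ¬ (p : ℤ) ∣ r + a i) →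
      ∀ ε : ℝ, 0 < ε → ∀ᶠ N : ℕ in atTop, (N : ℝ) ^ (1 - ε) ≤
        ({n : ℕ | 1 ≤ n ∧ n ≤ N ∧
          (∃ i j, i ≠ j ∧ ∃ p q : ℕ, p.Prime ∧ q.Prime ∧ (p : ℤ) = (⌊α * (n : ℝ) ^ c⌋₊ : ℤ) + a i ∧
            (q : ℤ) = (⌊α * (n : ℝ) ^ c⌋₊ : ℤ) + a j) ∧
          ∀ p : ℕ, p.Prime → (∃ i j, (⌊α * (n : ℝ) ^ c⌋₊ : ℤ) + a i ≤ p ∧
            (p : ℤ) ≤ (⌊α * (n : ℝ) ^ c⌋₊ : ℤ) + a j) →
            ∃ i, (p : ℤ) = (⌊α * (n : ℝ) ^ c⌋₊ : ℤ) + a i}.ncard : ℝ)) :=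
  pairs gaps dhl c hc

end Pool.Agent.Results.MP_0b748d_nt.MetricPrimePairs
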