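import Pool.Agent.H912R3.QM.Main

set_option autoImplicit false

/-! # Composite values of `(n + a) ^ 2 - D b ^ 2` at an arbitrary set of prescribed places

Let `D ≥ 2` not be a square (for instance `D = 2`). For every finite set `F` of pairs `(a, b)`, `b ≥ 1`,
of size at most `exp ((log X) ^ A)` with `∑ (b / φ(b)) ^ 2 ≤ c log X log log X`, every interval of
length `X` contains an `n` for which all the numbers `(n + a) ^ 2 - D b ^ 2`, `(a, b) ∈ F`, are composite,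
with a prime factor at most `exp ((log X) ^ (1 / 20))`. With `b = 1`, `D = 2`: `(n + a) ^ 2 - 2` for `a` in
an arbitrary set. -/

namespace Pool.Agent.Results.MP_0b748d_nt.PrescribedComposites

theorem result : ∀ D : ℤ, 2 ≤ D → ¬ IsSquare D → ∀ A : ℕ, ∃ c : ℝ, 0 < c ∧ ∃ X₀ : ℝ,
    ∀ X : ℝ, X₀ ≤ X → ∀ F : Finset (ℤ × ℕ),
    (∀ x ∈ F, 1 ≤ x.2 ∧ |(x.1 : ℝ)| ≤ Real.exp ((Real.log X) ^ A) ∧
      (x.2 : ℝ) ≤ Real.exp ((Real.log X) ^ A)) →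
    ∑ x ∈ F, ((x.2 : ℝ) / Nat.totient x.2) ^ 2 ≤ c * (Real.log X * Real.log (Real.log X)) →
    ∀ z : ℤ, ∃ n : ℤ, z < n ∧ (n : ℝ) ≤ z + X ∧
      ∀ x ∈ F, ¬ Prime ((n + x.1) ^ 2 - D * (x.2 : ℤ) ^ 2) ∧
        ∃ p : ℕ, p.Prime ∧ (p : ℝ) ≤ Real.exp ((Real.log X) ^ (1 / 20 : ℝ)) ∧
          (p : ℤ) ∣ (n + x.1) ^ 2 - D * (x.2 : ℤ) ^ 2 := by
  intro D hD hsq A
  obtain ⟨c, hc, X₀, h⟩ := Pool.Agent.H912R3.QM.two_squares D (by omega) hsq A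
  refine ⟨c, hc, X₀, fun X hX F hF hsum z => ?_⟩
  obtain ⟨n, h1, h2, h3⟩ := h X hX F hF hsum z
  refine ⟨n, h1, h2, fun x hx => ?_⟩
  obtain ⟨p, hp, hpE, hpd, hpl⟩ := h3 x hx
  rw [← sub_eq_add_neg] at hpd hpl
  refine ⟨fun hpr => ?_, p, hp, hpE, hpd⟩
  have hpi : Prime (p : ℤ) := Nat.prime_iff_prime_int.1 hp
  have h4 : Associated (p : ℤ) ((n + x.1) ^ 2 - D * (x.2 : ℤ) ^ 2) :=
    (Prime.dvd_prime_iff_associated hpi hpr).1 hpd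
  have h5 : (p : ℤ).natAbs = ((n + x.1) ^ 2 - D * (x.2 : ℤ) ^ 2).natAbs :=
    Int.associated_iff_natAbs.1 h4
  rw [Int.abs_eq_natAbs, ← h5, Int.natAbs_natCast] at hpl
  exact lt_irrefl _ hpl

end Pool.Agent.Results.MP_0b748d_nt.PrescribedComposites
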