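import Pool.Agent.H359R3.SetVersion
import Pool.Agent.H359R3.TwoForm

/-!
Let `S` be a set containing `2` or a prime congruent to `±1` modulo `8`. For arbitrarily
large `X`, at least `X / (log X)^38` of the integers `n` in `(X, 2X]` satisfy `n^2-2 = s^2 m`
with `m` squarefree, `s ≤ (log X)^41`, and an odd number of primes of `S` dividing `m`.
-/

theorem Pool.Agent.Results.MP_0b748d_nt.PrimeSetParity.result
    (S : Set ℕ) (hS : ∃ p ∈ S, p.Prime ∧ (p % 8 = 1 ∨ p % 8 = 2 ∨ p % 8 = 7)) (X0 : ℕ) :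
    ∃ X : ℕ, X0 ≤ X ∧ (X : ℝ) / Real.log X ^ 38 ≤
      (Set.ncard {n : ℕ | X < n ∧ n ≤ 2 * X ∧ ∃ s m : ℕ, (n : ℤ) ^ 2 - 2 = s ^ 2 * m ∧
        Squarefree m ∧ (s : ℝ) ≤ Real.log X ^ 41 ∧
        Odd (Set.ncard {p : ℕ | p.Prime ∧ p ∣ m ∧ p ∈ S})} : ℝ) := by
  obtain ⟨p, hpS, hp, h8⟩ := hS
  obtain ⟨x, y, hxy⟩ := H359R3.prime_eq_sq_sub_two_sq p hp h8
  obtain ⟨X, hX, hc⟩ := H359R3.main_set_int 0 (-2) (by norm_num) S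
    ⟨p, hpS, hp, x, y, by rw [hxy]; ring⟩ X0
  refine ⟨X, hX, ?_⟩
  have heq : H359R3.QSS 0 (-2) S X = {n : ℕ | X < n ∧ n ≤ 2 * X ∧ ∃ s m : ℕ,
      (n : ℤ) ^ 2 - 2 = s ^ 2 * m ∧ Squarefree m ∧
        (s : ℝ) ≤ Real.log X ^ 41 ∧ Odd (Set.ncard {p : ℕ | p.Prime ∧ p ∣ m ∧ p ∈ S})} := by
    unfold H359R3.QSS
    simp only [zero_mul, add_zero, sub_eq_add_neg]
  rw [heq] at hc
  exact hc
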